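import Pool.Agent.Q240.KS.Stm1

/-!
Project KS: the Halász-Montgomery inequality and Huxley's large value theorem.
-/

set_option autoImplicit false

namespace Pool.Agent.Q209.KS

open Finset
open Pool.Agent.H376R2.MR
open Pool.Agent.Q240.KS

theorem ch_mul_conj (k l : ℤ) (x : ℝ) : ch k x * (starRingEnd ℂ) (ch l x) = ch (k - l) x := by
  unfold ch
  rw [← Complex.exp_conj, ← Complex.exp_add]
  congr 1
  have e : ∀ y : ℝ, (starRingEnd ℂ) (-(y : ℂ) * Complex.I) = (y : ℂ) * Complex.I := by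
    intro y
    rw [map_mul, map_neg, Complex.conj_ofReal, Complex.conj_I]
    ring
  rw [e]
  push_cast
  ring

theorem ch_conj (k : ℤ) (x : ℝ) : (starRingEnd ℂ) (ch k x) = ch (-k) x := by
  unfold ch
  rw [← Complex.exp_conj]
  congr 1
  have e : ∀ y : ℝ, (starRingEnd ℂ) (-(y : ℂ) * Complex.I) = (y : ℂ) * Complex.I := by
    intro y
    rw [map_mul, map_neg, Complex.conj_ofReal, Complex.conj_I]
    ring
  rw [e]
  push_cast
  ring

theorem kn_neg (N : ℝ) (τ : ℤ) : ‖kn N (-τ)‖ = ‖kn N τ‖ := by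
  have h : kn N (-τ) = (starRingEnd ℂ) (kn N τ) := by
    unfold kn
    rw [map_sum]
    refine Finset.sum_congr rfl fun n _ => ?_
    rw [map_mul, Complex.conj_ofReal, ch_conj]
  rw [h, RCLike.norm_conj]

theorem hmg : S_HMG := by
  intro s a N B L hN hB hs hL
  obtain ⟨M, hM⟩ : ∃ M : Finset ℕ, M = Icc 1 ⌊Real.exp 3 * N⌋₊ := ⟨_, rfl⟩
  obtain ⟨P, hP⟩ : ∃ P : ℤ → ℂ, P = fun k => DP s a k := ⟨_, rfl⟩
  obtain ⟨T, hT⟩ : ∃ T : ℝ, T = ∑ k ∈ L, ‖P k‖ ^ 2 := ⟨_, rfl⟩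
  obtain ⟨Bn, hBn⟩ : ∃ Bn : ℕ → ℂ, Bn = fun n : ℕ => ∑ k ∈ L, (starRingEnd ℂ) (P k) *
      ch k (Real.log (n : ℝ)) := ⟨_, rfl⟩
  have hT0 : 0 ≤ T := by rw [hT]; positivity
  have hG0 : 0 ≤ ∑ n ∈ s, (n : ℝ) * ‖a n‖ ^ 2 := by positivity
  change ∑ k ∈ L, ‖DP s a k‖ ^ 2 ≤ _
  have hTe : ∑ k ∈ L, ‖DP s a k‖ ^ 2 = T := by rw [hT, hP]
  rw [hTe]
  -- first step
  have h1 : (T : ℂ) = ∑ n ∈ s, a n * Bn n := by
    have e1 : (T : ℂ) = ∑ k ∈ L, (starRingEnd ℂ) (P k) * P k := by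
      rw [hT]
      push_cast
      refine Finset.sum_congr rfl fun k _ => ?_
      rw [mul_comm, Complex.mul_conj, Complex.normSq_eq_norm_sq]
      push_cast
      rfl
    rw [e1, hBn]
    simp only [Finset.mul_sum]
    rw [Finset.sum_comm]
    refine Finset.sum_congr rfl fun k _ => ?_
    rw [hP]
    simp only [DP, Finset.mul_sum]
    refine Finset.sum_congr rfl fun n _ => ?_
    ring
  have hn0 : ∀ n ∈ s, (0 : ℝ) < n := fun n hn => by exact_mod_cast (hs n hn).1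
  have h2 : T ^ 2 ≤ (∑ n ∈ s, (n : ℝ) * ‖a n‖ ^ 2) * ∑ n ∈ s, ‖Bn n‖ ^ 2 / n := by
    have e1 : T ≤ ∑ n ∈ s, (√n * ‖a n‖) * (‖Bn n‖ / √n) := by
      have e2 : T = ‖(T : ℂ)‖ := by rw [Complex.norm_real, Real.norm_eq_abs, abs_of_nonneg hT0]
      rw [e2, h1]
      refine (norm_sum_le _ _).trans (Finset.sum_le_sum fun n hn => ?_)
      have := Real.sqrt_pos.2 (hn0 n hn)
      rw [norm_mul]
      apply le_of_eq
      field_simp
    have e3 := Finset.sum_mul_sq_le_sq_mul_sq s (fun n => √n * ‖a n‖) (fun n => ‖Bn n‖ / √n)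
    have e4 : T ^ 2 ≤ (∑ n ∈ s, (√n * ‖a n‖) * (‖Bn n‖ / √n)) ^ 2 :=
      pow_le_pow_left₀ hT0 e1 2
    refine e4.trans (e3.trans (le_of_eq ?_))
    congr 1
    · refine Finset.sum_congr rfl fun n _ => ?_
      rw [mul_pow, Real.sq_sqrt (Nat.cast_nonneg _)]
    · refine Finset.sum_congr rfl fun n _ => ?_
      rw [div_pow, Real.sq_sqrt (Nat.cast_nonneg _)]
  have hWt0 : ∀ x, 0 ≤ Wt x := fun x => le_max_left _ _
  have hWt1 : ∀ x, |x| ≤ 2 → Wt x = 1 := by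
    intro x hx
    unfold Wt
    rw [min_eq_left (by linarith), max_eq_right (by norm_num)]
  have hsM : s ⊆ M := by
    intro n hn
    obtain ⟨h3, h4⟩ := hs n hn
    rw [hM, Finset.mem_Icc]
    refine ⟨h3, Nat.le_floor ?_⟩
    have h5 : Real.log n ≤ 3 + Real.log N := by linarith [(abs_le.1 h4).2]
    have h6 : (n : ℝ) = Real.exp (Real.log n) := (Real.exp_log (hn0 n hn)).symm
    rw [h6]
    calc Real.exp (Real.log n) ≤ Real.exp (3 + Real.log N) := Real.exp_le_exp.2 h5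
      _ = Real.exp 3 * N := by rw [Real.exp_add, Real.exp_log (by linarith)]
  have h3 : ∑ n ∈ s, ‖Bn n‖ ^ 2 / n ≤ ∑ n ∈ M, Wt (Real.log n - Real.log N) / n * ‖Bn n‖ ^ 2 := by
    have e1 : ∑ n ∈ s, ‖Bn n‖ ^ 2 / n = ∑ n ∈ s, Wt (Real.log n - Real.log N) / n * ‖Bn n‖ ^ 2 := by
      refine Finset.sum_congr rfl fun n hn => ?_
      rw [hWt1 _ (hs n hn).2]
      ring
    rw [e1]
    refine Finset.sum_le_sum_of_subset_of_nonneg hsM fun n _ _ => ?_
    exact mul_nonneg (div_nonneg (hWt0 _) (Nat.cast_nonneg _)) (by positivity)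
  -- the double sum
  have h4 : ∑ n ∈ M, Wt (Real.log n - Real.log N) / n * ‖Bn n‖ ^ 2 ≤ B * T := by
    have e1 : ((∑ n ∈ M, Wt (Real.log n - Real.log N) / n * ‖Bn n‖ ^ 2 : ℝ) : ℂ) =
        ∑ k ∈ L, ∑ l ∈ L, (starRingEnd ℂ) (P k) * P l * kn N (k - l) := by
      have e2 : ∀ n, ((‖Bn n‖ ^ 2 : ℝ) : ℂ) =
          ∑ k ∈ L, ∑ l ∈ L, (starRingEnd ℂ) (P k) * P l * ch (k - l) (Real.log n) := by
        intro n
        have e3 : ((‖Bn n‖ ^ 2 : ℝ) : ℂ) = Bn n * (starRingEnd ℂ) (Bn n) := by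
          rw [Complex.mul_conj, Complex.normSq_eq_norm_sq]
        rw [e3, hBn]
        simp only [map_sum, Finset.sum_mul, Finset.mul_sum]
        rw [Finset.sum_comm]
        refine Finset.sum_congr rfl fun k _ => Finset.sum_congr rfl fun l _ => ?_
        rw [map_mul, Complex.conj_conj, ← ch_mul_conj]
        ring
      push_cast
      have e4 : ∀ n ∈ M, ((Wt (Real.log n - Real.log N) : ℝ) : ℂ) / n * (‖Bn n‖ : ℂ) ^ 2 =
          ∑ k ∈ L, ∑ l ∈ L, (starRingEnd ℂ) (P k) * P l *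
            (((Wt (Real.log n - Real.log N) / n : ℝ) : ℂ) * ch (k - l) (Real.log n)) := by
        intro n _
        have e5 := e2 n
        push_cast at e5
        rw [e5]
        simp only [Finset.mul_sum]
        refine Finset.sum_congr rfl fun k _ => Finset.sum_congr rfl fun l _ => ?_
        push_cast
        ring
      rw [Finset.sum_congr rfl e4, Finset.sum_comm]
      refine Finset.sum_congr rfl fun k _ => ?_
      rw [Finset.sum_comm]
      refine Finset.sum_congr rfl fun l _ => ?_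
      rw [← Finset.mul_sum]
      unfold kn
      rw [hM]
    have e6 : ∑ n ∈ M, Wt (Real.log n - Real.log N) / n * ‖Bn n‖ ^ 2 ≤
        ∑ k ∈ L, ∑ l ∈ L, (‖P k‖ ^ 2 + ‖P l‖ ^ 2) / 2 * ‖kn N (k - l)‖ := by
      refine (le_abs_self _).trans ?_
      rw [← Real.norm_eq_abs, ← Complex.norm_real, e1]
      refine (norm_sum_le _ _).trans (Finset.sum_le_sum fun k _ => ?_)
      refine (norm_sum_le _ _).trans (Finset.sum_le_sum fun l _ => ?_)
      rw [norm_mul, norm_mul, RCLike.norm_conj]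
      refine mul_le_mul_of_nonneg_right ?_ (norm_nonneg _)
      nlinarith [sq_nonneg (‖P k‖ - ‖P l‖)]
    refine e6.trans ?_
    have e7 : ∑ k ∈ L, ∑ l ∈ L, (‖P k‖ ^ 2 + ‖P l‖ ^ 2) / 2 * ‖kn N (k - l)‖ =
        ∑ k ∈ L, ‖P k‖ ^ 2 * ∑ l ∈ L, ‖kn N (k - l)‖ := by
      have e8 : ∀ k l, (‖P k‖ ^ 2 + ‖P l‖ ^ 2) / 2 * ‖kn N (k - l)‖ =
          ‖P k‖ ^ 2 / 2 * ‖kn N (k - l)‖ + ‖P l‖ ^ 2 / 2 * ‖kn N (l - k)‖ := by
        intro k l
        have : ‖kn N (l - k)‖ = ‖kn N (k - l)‖ := by rw [← kn_neg, neg_sub]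
        rw [this]
        ring
      simp only [e8, Finset.sum_add_distrib]
      rw [Finset.sum_comm (f := fun k l => ‖P l‖ ^ 2 / 2 * ‖kn N (l - k)‖)]
      rw [← Finset.sum_add_distrib]
      refine Finset.sum_congr rfl fun k _ => ?_
      rw [← Finset.mul_sum]
      ring
    rw [e7, hT, Finset.mul_sum]
    refine Finset.sum_le_sum fun k hk => ?_
    rw [mul_comm]
    exact mul_le_mul_of_nonneg_right (hL k hk) (by positivity)
  have h5 : T ^ 2 ≤ (∑ n ∈ s, (n : ℝ) * ‖a n‖ ^ 2) * (B * T) :=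
    h2.trans (mul_le_mul_of_nonneg_left (h3.trans h4) hG0)
  rcases eq_or_lt_of_le hT0 with h6 | h6
  · rw [← h6]
    positivity
  · nlinarith

theorem inv_sq_pos (A : Finset ℤ) (hA : ∀ τ ∈ A, 0 < τ) : ∑ τ ∈ A, 1 / (τ : ℝ) ^ 2 ≤ 2 := by
  classical
  have h1 : ∑ τ ∈ A, 1 / (τ : ℝ) ^ 2 = ∑ n ∈ A.image Int.natAbs, ((n : ℝ) ^ 2)⁻¹ := by
    rw [Finset.sum_image]
    · refine Finset.sum_congr rfl fun τ hτ => ?_
      have h2 : ((τ.natAbs : ℕ) : ℝ) = (τ : ℝ) := by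
        rw [Nat.cast_natAbs, abs_of_pos (hA τ hτ)]
      rw [h2, one_div]
    · intro x hx y hy hxy
      have hx' := hA x hx
      have hy' := hA y hy
      omega
  rw [h1]
  have h2 : A.image Int.natAbs ⊆ Finset.Ioo 0 ((A.image Int.natAbs).sup id + 1) := by
    intro n hn
    rw [Finset.mem_Ioo]
    constructor
    · obtain ⟨τ, hτ, rfl⟩ := Finset.mem_image.1 hn
      have := hA τ hτ
      omega
    · exact Nat.lt_succ_of_le (Finset.le_sup (f := id) hn)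
  refine (Finset.sum_le_sum_of_subset_of_nonneg h2 fun n _ _ => by positivity).trans ?_
  have h3 := sum_Ioo_inv_sq_le (α := ℝ) 0 ((A.image Int.natAbs).sup id + 1)
  norm_num at h3 ⊢
  exact h3

theorem inv_sq_le (A : Finset ℤ) (hA : ∀ τ ∈ A, τ ≠ 0) : ∑ τ ∈ A, 1 / (τ : ℝ) ^ 2 ≤ 4 := by
  classical
  have h1 : ∑ τ ∈ A, 1 / (τ : ℝ) ^ 2 = ∑ τ ∈ A.filter (fun τ => 0 < τ), 1 / (τ : ℝ) ^ 2 +
      ∑ τ ∈ A.filter (fun τ => ¬ 0 < τ), 1 / (τ : ℝ) ^ 2 :=
    (Finset.sum_filter_add_sum_filter_not A _ _).symm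
  have h2 : ∑ τ ∈ A.filter (fun τ => ¬ 0 < τ), 1 / (τ : ℝ) ^ 2 =
      ∑ τ ∈ (A.filter (fun τ => ¬ 0 < τ)).image (fun τ => -τ), 1 / (τ : ℝ) ^ 2 := by
    rw [Finset.sum_image fun x _ y _ h => neg_injective h]
    refine Finset.sum_congr rfl fun τ _ => ?_
    push_cast
    rw [neg_sq]
  have h3 := inv_sq_pos (A.filter (fun τ => 0 < τ)) fun τ hτ => (Finset.mem_filter.1 hτ).2
  have h4 := inv_sq_pos ((A.filter (fun τ => ¬ 0 < τ)).image (fun τ => -τ)) fun τ hτ => by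
    obtain ⟨σ, hσ, rfl⟩ := Finset.mem_image.1 hτ
    obtain ⟨h5, h6⟩ := Finset.mem_filter.1 hσ
    have := hA σ h5
    omega
  rw [h1, h2]
  linarith

theorem hu (hH : S_HMG) (hK : S_KER) : S_HU := by
  classical
  obtain ⟨C₁, hC₁, hker⟩ := hK
  refine ⟨224 * C₁ ^ 3, by nlinarith [pow_le_pow_left₀ (by norm_num) hC₁ 3], ?_⟩
  intro s a N K V L hN hs hK1 hV hL
  obtain ⟨G, hG⟩ : ∃ G : ℝ, G = ∑ n ∈ s, (n : ℝ) * ‖a n‖ ^ 2 := ⟨_, rfl⟩
  rw [← hG]
  have hG0 : 0 ≤ G := by rw [hG]; positivity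
  obtain ⟨ell, hell⟩ : ∃ ell : ℝ, ell = 1 + Real.log N := ⟨_, rfl⟩
  have hell1 : 1 ≤ ell := by rw [hell]; linarith [Real.log_nonneg hN]
  rw [← hell]
  rcases L.eq_empty_or_nonempty with rfl | ⟨k0, hk0⟩
  · simp only [Finset.card_empty, Nat.cast_zero]
    positivity
  have hGpos : 0 < G := by
    have h1 := hH s a N C₁ {k0} hN (by linarith) hs (by
      intro k hk
      rw [Finset.sum_singleton, Finset.mem_singleton.1 hk, sub_self]
      exact (hker N hN).1)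
    rw [Finset.sum_singleton, ← hG] at h1
    have h2 : V ^ 2 ≤ ‖DP s a k0‖ ^ 2 := pow_le_pow_left₀ hV.le (hL k0 hk0).2 2
    by_contra h3
    have h4 : G = 0 := le_antisymm (not_lt.1 h3) hG0
    rw [h4, mul_zero] at h1
    have : 0 < V ^ 2 := by positivity
    linarith
  have hN0 : 0 < N := by linarith
  have hC0 : 0 < C₁ := by linarith
  have hell0 : 0 < ell := by linarith
  obtain ⟨q, hq⟩ : ∃ q : ℝ, q = V ^ 2 * N / (4 * C₁ * G * ell) := ⟨_, rfl⟩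
  have hq0 : 0 < q := by rw [hq]; positivity
  -- a class
  have hclass : ∀ L' : Finset ℤ, L' ⊆ L → (∀ k ∈ L', ∀ l ∈ L', |((k - l : ℤ) : ℝ)| ≤ q ^ 2) →
      (L'.card : ℝ) ≤ 7 * C₁ * G / V ^ 2 := by
    intro L' hL' hd
    have h1 := hH s a N (5 * C₁ + L'.card * (C₁ * q * ell / N)) L' hN (by positivity) hs (by
      intro k hk
      rw [← Finset.add_sum_erase L' _ hk, sub_self]
      have h2 : ∑ l ∈ L'.erase k, ‖kn N (k - l)‖ ≤ ∑ l ∈ L'.erase k,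
          (C₁ * (1 / (((k - l : ℤ) : ℝ)) ^ 2) + C₁ * q * ell / N) := by
        refine Finset.sum_le_sum fun l hl => ?_
        obtain ⟨h3, h4⟩ := Finset.mem_erase.1 hl
        have h5 := (hker N hN).2 (k - l) (sub_ne_zero.2 h3.symm)
        refine h5.trans ?_
        rw [mul_add]
        refine add_le_add le_rfl ?_
        have h6 : |((k - l : ℤ) : ℝ)| ^ (1 / 2 : ℝ) ≤ q := by
          have h7 : |((k - l : ℤ) : ℝ)| ^ (1 / 2 : ℝ) ≤ (q ^ 2) ^ (1 / 2 : ℝ) :=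
            Real.rpow_le_rpow (abs_nonneg _) (hd k hk l h4) (by norm_num)
          rwa [← Real.sqrt_eq_rpow, ← Real.sqrt_eq_rpow, Real.sqrt_sq hq0.le,
            Real.sqrt_eq_rpow] at h7
        rw [← hell]
        have h8 : C₁ * (|((k - l : ℤ) : ℝ)| ^ (1 / 2 : ℝ) * ell / N) ≤ C₁ * (q * ell / N) := by
          refine mul_le_mul_of_nonneg_left ?_ hC0.le
          exact div_le_div_of_nonneg_right (mul_le_mul_of_nonneg_right h6 hell0.le) hN0.le
        refine h8.trans (le_of_eq ?_)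
        ring
      have h9 : ∑ l ∈ L'.erase k, (1 / (((k - l : ℤ) : ℝ)) ^ 2) ≤ 4 := by
        have h10 := inv_sq_le ((L'.erase k).image fun l => k - l) (by
          intro τ hτ
          obtain ⟨l, hl, rfl⟩ := Finset.mem_image.1 hτ
          exact sub_ne_zero.2 (Finset.mem_erase.1 hl).1.symm)
        rwa [Finset.sum_image fun x _ y _ h => by simpa using h] at h10
      have h11 : ∑ l ∈ L'.erase k, (C₁ * (1 / (((k - l : ℤ) : ℝ)) ^ 2) + C₁ * q * ell / N) =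
          C₁ * ∑ l ∈ L'.erase k, (1 / (((k - l : ℤ) : ℝ)) ^ 2) +
            (L'.erase k).card * (C₁ * q * ell / N) := by
        rw [Finset.sum_add_distrib, ← Finset.mul_sum, Finset.sum_const, nsmul_eq_mul]
      have h12 : ((L'.erase k).card : ℝ) ≤ L'.card := by
        exact_mod_cast Finset.card_le_card (Finset.erase_subset _ _)
      have h13 : 0 ≤ C₁ * q * ell / N := by positivity
      have h14 := mul_le_mul_of_nonneg_right h12 h13
      have h15 := mul_le_mul_of_nonneg_left h9 hC0.le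
      have h16 := (hker N hN).1
      linarith)
    rw [← hG] at h1
    have h2 : (L'.card : ℝ) * V ^ 2 ≤ ∑ k ∈ L', ‖DP s a k‖ ^ 2 := by
      rw [← nsmul_eq_mul, ← Finset.sum_const]
      exact Finset.sum_le_sum fun k hk => pow_le_pow_left₀ hV.le (hL k (hL' hk)).2 2
    have h3 : C₁ * q * ell / N * G = V ^ 2 / 4 := by
      rw [hq]
      field_simp
    rw [le_div_iff₀ (by positivity)]
    have h4 : (5 * C₁ + L'.card * (C₁ * q * ell / N)) * G =
        5 * C₁ * G + L'.card * (V ^ 2 / 4) := by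
      rw [← h3]
      ring
    rw [h4] at h1
    have h5 : 0 ≤ (L'.card : ℝ) * V ^ 2 := by positivity
    have h6 : 0 ≤ C₁ * G := by positivity
    linarith
  -- the classes
  have hq2 : 0 < q ^ 2 := by positivity
  have hmaps : ∀ k ∈ L, ⌊(k : ℝ) / q ^ 2⌋ ∈ Finset.Icc ⌊(-(K : ℝ)) / q ^ 2⌋ ⌊(K : ℝ) / q ^ 2⌋ := by
    intro k hk
    have h1 := (hL k hk).1
    unfold FK at h1
    rw [Finset.mem_Ioo] at h1
    have h2 : (-(K : ℝ)) ≤ k := by exact_mod_cast h1.1.le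
    have h3 : (k : ℝ) ≤ K := by exact_mod_cast h1.2.le
    rw [Finset.mem_Icc]
    exact ⟨Int.floor_le_floor (div_le_div_of_nonneg_right h2 hq2.le),
      Int.floor_le_floor (div_le_div_of_nonneg_right h3 hq2.le)⟩
  have hcard := Finset.card_eq_sum_card_fiberwise hmaps
  have h1 : (L.card : ℝ) ≤ (Finset.Icc ⌊(-(K : ℝ)) / q ^ 2⌋ ⌊(K : ℝ) / q ^ 2⌋).card *
      (7 * C₁ * G / V ^ 2) := by
    rw [hcard]
    push_cast
    refine (Finset.sum_le_sum fun j _ => hclass _ (Finset.filter_subset _ _) ?_).trans ?_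
    · intro k hk l hl
      have e1 := (Finset.mem_filter.1 hk).2
      have e2 := (Finset.mem_filter.1 hl).2
      have e3 := Int.floor_le ((k : ℝ) / q ^ 2)
      have e4 := Int.lt_floor_add_one ((k : ℝ) / q ^ 2)
      have e5 := Int.floor_le ((l : ℝ) / q ^ 2)
      have e6 := Int.lt_floor_add_one ((l : ℝ) / q ^ 2)
      rw [e1] at e3 e4
      rw [e2] at e5 e6
      rw [le_div_iff₀ hq2] at e3 e5
      rw [div_lt_iff₀ hq2] at e4 e6
      push_cast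
      rw [abs_le]
      constructor <;> nlinarith
    · rw [Finset.sum_const, nsmul_eq_mul]
  have h2 : ((Finset.Icc ⌊(-(K : ℝ)) / q ^ 2⌋ ⌊(K : ℝ) / q ^ 2⌋).card : ℝ) ≤
      2 * K / q ^ 2 + 2 := by
    rw [Int.card_Icc]
    have e0 : (-(K : ℝ)) / q ^ 2 ≤ (K : ℝ) / q ^ 2 :=
      div_le_div_of_nonneg_right (by have : (0 : ℝ) ≤ K := Nat.cast_nonneg _; linarith) hq2.le
    have e1 := Int.floor_le_floor e0
    have e2 : (((⌊(K : ℝ) / q ^ 2⌋ + 1 - ⌊(-(K : ℝ)) / q ^ 2⌋).toNat : ℕ) : ℝ) =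
        (((⌊(K : ℝ) / q ^ 2⌋ + 1 - ⌊(-(K : ℝ)) / q ^ 2⌋ : ℤ)) : ℝ) := by
      have e3 : (((⌊(K : ℝ) / q ^ 2⌋ + 1 - ⌊(-(K : ℝ)) / q ^ 2⌋).toNat : ℕ) : ℤ) =
        ⌊(K : ℝ) / q ^ 2⌋ + 1 - ⌊(-(K : ℝ)) / q ^ 2⌋ := Int.toNat_of_nonneg (by omega)
      exact_mod_cast congrArg (fun z : ℤ => (z : ℝ)) e3
    rw [e2]
    push_cast
    have e4 := Int.floor_le ((K : ℝ) / q ^ 2)
    have e5 := Int.lt_floor_add_one ((-(K : ℝ)) / q ^ 2)
    have e6 : (-(K : ℝ)) / q ^ 2 = -((K : ℝ) / q ^ 2) := neg_div _ _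
    have e7 : 2 * (K : ℝ) / q ^ 2 = 2 * ((K : ℝ) / q ^ 2) := mul_div_assoc _ _ _
    rw [e7]
    rw [e6] at e5 ⊢
    linarith
  have hD : 0 ≤ 7 * C₁ * G / V ^ 2 := by positivity
  refine h1.trans ((mul_le_mul_of_nonneg_right h2 hD).trans ?_)
  have h3 : (2 * K / q ^ 2 + 2) * (7 * C₁ * G / V ^ 2) = 14 * C₁ * (G / V ^ 2) +
      224 * C₁ ^ 3 * ell ^ 2 * (K * G ^ 3 / (N ^ 2 * V ^ 6)) := by
    rw [hq]
    field_simp
    ring
  rw [h3, mul_add]
  refine add_le_add ?_ le_rfl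
  refine mul_le_mul_of_nonneg_right ?_ (by positivity)
  have h4 : 1 ≤ ell ^ 2 := one_le_pow₀ hell1
  have h5 : C₁ ≤ C₁ ^ 3 := by nlinarith [mul_nonneg hC0.le (by nlinarith : (0 : ℝ) ≤ C₁ ^ 2 - 1)]
  nlinarith [mul_le_mul h5 h4 (by norm_num) (by positivity)]

end Pool.Agent.Q209.KS
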