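import Pool.Agent.Q240.KS.Stm1
import Pool.Agent.Q53.CR.SDB

/-!
Project KS: the Halász kernel.
-/

set_option autoImplicit false

namespace Pool.Agent.Q209.KS

open Finset
open Pool.Agent.H376R2.MR
open Pool.Agent.Q240.KS

/-- summation by parts -/
theorem abel_id (f : ℕ → ℝ) (g : ℕ → ℂ) {a b : ℕ} (hab : a ≤ b) :
    ∑ n ∈ Ioc a b, (f n : ℂ) * g n = (f b : ℂ) * ∑ n ∈ Ioc a b, g n -
      ∑ n ∈ Ico a b, ((f (n + 1) - f n : ℝ) : ℂ) * ∑ m ∈ Ioc a n, g m := by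
  induction b, hab using Nat.le_induction with
  | base => simp
  | succ m hm ih =>
    rw [Finset.sum_Ioc_succ_top hm, Finset.sum_Ioc_succ_top hm, ih,
      Finset.sum_Ico_succ_top hm]
    push_cast
    ring

theorem abel_bd (f : ℕ → ℝ) (g : ℕ → ℂ) {a b : ℕ} (hab : a ≤ b) {B : ℝ}
    (hB : ∀ m, a ≤ m → m ≤ b → ‖∑ n ∈ Ioc a m, g n‖ ≤ B) :
    ‖∑ n ∈ Ioc a b, (f n : ℂ) * g n‖ ≤ B * (|f b| + ∑ n ∈ Ico a b, |f (n + 1) - f n|) := by
  rw [abel_id f g hab]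
  refine (norm_sub_le _ _).trans ?_
  rw [mul_add]
  refine add_le_add ?_ ?_
  · rw [norm_mul, Complex.norm_real, Real.norm_eq_abs, mul_comm]
    exact mul_le_mul_of_nonneg_right (hB b hab le_rfl) (abs_nonneg _)
  · refine (norm_sum_le _ _).trans ?_
    rw [Finset.mul_sum]
    refine Finset.sum_le_sum fun n hn => ?_
    rw [Finset.mem_Ico] at hn
    rw [norm_mul, Complex.norm_real, Real.norm_eq_abs, mul_comm]
    exact mul_le_mul_of_nonneg_right (hB n hn.1 hn.2.le) (abs_nonneg _)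

/-- dyadic blocks -/
theorem dyadic (g : ℕ → ℂ) {a : ℕ} (ha : 1 ≤ a) {B : ℝ} (hB0 : 0 ≤ B) (r : ℕ) :
    ∀ m, a ≤ m → m ≤ 2 ^ r * a →
    (∀ M M', a ≤ M → M ≤ M' → M' ≤ 2 * M → M' ≤ m → ‖∑ n ∈ Ioc M M', g n‖ ≤ B) →
    ‖∑ n ∈ Ioc a m, g n‖ ≤ r * B := by
  induction r with
  | zero =>
    intro m h1 h2 _
    have : m = a := by omega
    subst this
    simp
  | succ r ih =>
    intro m h1 h2 h3
    by_cases h4 : m ≤ 2 ^ r * a
    · refine (ih m h1 h4 h3).trans ?_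
      push_cast
      linarith
    · push Not at h4
      have h5 : a ≤ 2 ^ r * a := Nat.le_mul_of_pos_left _ (by positivity)
      rw [← Finset.sum_Ioc_consecutive _ h5 h4.le]
      refine (norm_add_le _ _).trans ?_
      have h6 := ih (2 ^ r * a) h5 le_rfl fun M M' e1 e2 e3 e4 => h3 M M' e1 e2 e3 (e4.trans h4.le)
      have h7 := h3 (2 ^ r * a) m h5 h4.le (by rw [pow_succ] at h2; linarith) le_rfl
      push_cast
      linarith

theorem ch_eq_nt (τ : ℤ) {n : ℕ} (hn : 1 ≤ n) :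
    ch τ (Real.log n) = Pool.Agent.Q236.CR.nt τ n := by
  unfold ch Pool.Agent.Q236.CR.nt
  have h0 : (n : ℂ) ≠ 0 := by
    have : n ≠ 0 := by omega
    exact_mod_cast this
  rw [Complex.cpow_def_of_ne_zero h0, ← Complex.natCast_log]
  congr 1
  push_cast
  ring

theorem w_nonneg (x : ℝ) : 0 ≤ w x := le_max_left _ _

theorem w_zero {x : ℝ} (h : 1 ≤ |x|) : w x = 0 := by
  unfold w
  rw [max_eq_left (by linarith)]

theorem Wt_le (x : ℝ) : Wt x ≤ 1 := by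
  unfold Wt
  exact max_le (by norm_num) (min_le_left _ _)

theorem Wt_nonneg (x : ℝ) : 0 ≤ Wt x := le_max_left _ _

theorem Wt_zero {x : ℝ} (h : 3 ≤ |x|) : Wt x = 0 := by
  unfold Wt
  rw [max_eq_left]
  exact (min_le_right _ _).trans (by linarith)

theorem Wt_lip (x y : ℝ) : |Wt x - Wt y| ≤ |x - y| := by
  unfold Wt
  refine (abs_max_sub_max_le_max _ _ _ _).trans ?_
  refine max_le (by simp) ?_
  refine (abs_min_sub_min_le_max _ _ _ _).trans ?_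
  refine max_le (by simp) ?_
  have h : 3 - |x| - (3 - |y|) = |y| - |x| := by ring
  rw [h]
  exact (abs_abs_sub_abs_le_abs_sub y x).trans (le_of_eq (abs_sub_comm y x))

theorem w_abs (x : ℝ) : w x = (|x - 1| - 2 * |x| + |x + 1|) / 2 := by
  unfold w
  rcases abs_cases x with ⟨h1, h1'⟩ | ⟨h1, h1'⟩ <;>
  rcases abs_cases (x - 1) with ⟨h2, h2'⟩ | ⟨h2, h2'⟩ <;>
  rcases abs_cases (x + 1) with ⟨h3, h3'⟩ | ⟨h3, h3'⟩ <;>
  rcases max_cases (0 : ℝ) (1 - |x|) with ⟨h4, h4'⟩ | ⟨h4, h4'⟩ <;>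
  rw [h4, h2, h3] <;> rw [h1] at * <;> linarith

theorem Wt_abs (x : ℝ) : Wt x = (|x + 3| - |x + 2| - |x - 2| + |x - 3|) / 2 := by
  unfold Wt
  rcases abs_cases x with ⟨h1, h1'⟩ | ⟨h1, h1'⟩ <;>
  rcases abs_cases (x - 2) with ⟨h2, h2'⟩ | ⟨h2, h2'⟩ <;>
  rcases abs_cases (x + 2) with ⟨h3, h3'⟩ | ⟨h3, h3'⟩ <;>
  rcases abs_cases (x - 3) with ⟨h5, h5'⟩ | ⟨h5, h5'⟩ <;>
  rcases abs_cases (x + 3) with ⟨h6, h6'⟩ | ⟨h6, h6'⟩ <;>
  rcases min_cases (1 : ℝ) (3 - |x|) with ⟨h7, h7'⟩ | ⟨h7, h7'⟩ <;>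
  rw [h7] <;>
  rcases max_cases (0 : ℝ) 1 with ⟨h4, h4'⟩ | ⟨h4, h4'⟩ <;>
  rcases max_cases (0 : ℝ) (3 - |x|) with ⟨h8, h8'⟩ | ⟨h8, h8'⟩ <;>
  (first | rw [h4] | rw [h8]) <;> rw [h1] at * <;> linarith

theorem Wt_eq (x : ℝ) : Wt x = w (x - 2) + w (x - 1) + w x + w (x + 1) + w (x + 2) := by
  rw [Wt_abs, w_abs, w_abs, w_abs, w_abs, w_abs]
  have e1 : x - 2 - 1 = x - 3 := by ring
  have e2 : x - 2 + 1 = x - 1 := by ring
  have e3 : x - 1 - 1 = x - 2 := by ring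
  have e4 : x - 1 + 1 = x := by ring
  have e5 : x + 1 - 1 = x := by ring
  have e6 : x + 1 + 1 = x + 2 := by ring
  have e7 : x + 2 - 1 = x + 1 := by ring
  have e8 : x + 2 + 1 = x + 3 := by ring
  rw [e1, e2, e3, e4, e5, e6, e7, e8]
  ring

theorem norm_ch (k : ℤ) (x : ℝ) : ‖ch k x‖ = 1 := by
  unfold ch
  rw [← Complex.ofReal_neg]
  exact Complex.norm_exp_ofReal_mul_I _

theorem term_bd {N : ℝ} (hN : 1 ≤ N) {n : ℕ} (hn : 1 ≤ n) :
    Wt (Real.log n - Real.log N) / n ≤ Real.exp 3 / N := by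
  have hN0 : 0 < N := by linarith
  have hn0 : (0 : ℝ) < n := by exact_mod_cast hn
  by_cases h : 3 ≤ |Real.log n - Real.log N|
  · rw [Wt_zero h, zero_div]
    positivity
  · push Not at h
    have h1 : Real.log N ≤ 3 + Real.log n := by linarith [(abs_lt.1 h).1]
    have h2 : N ≤ Real.exp 3 * n := by
      calc N = Real.exp (Real.log N) := (Real.exp_log hN0).symm
        _ ≤ Real.exp (3 + Real.log n) := Real.exp_le_exp.2 h1
        _ = Real.exp 3 * n := by rw [Real.exp_add, Real.exp_log hn0]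
    rw [div_le_div_iff₀ hn0 hN0]
    have h3 : Wt (Real.log n - Real.log N) * N ≤ 1 * N :=
      mul_le_mul_of_nonneg_right (Wt_le _) hN0.le
    linarith

theorem ker_zero {N : ℝ} (hN : 1 ≤ N) : ‖kn N 0‖ ≤ Real.exp 6 := by
  have hN0 : 0 < N := by linarith
  unfold kn
  refine (norm_sum_le _ _).trans ?_
  have h1 : ∀ n ∈ Icc 1 ⌊Real.exp 3 * N⌋₊,
      ‖((Wt (Real.log n - Real.log N) / n : ℝ) : ℂ) * ch 0 (Real.log n)‖ ≤ Real.exp 3 / N := by
    intro n hn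
    rw [norm_mul, norm_ch, mul_one, Complex.norm_real, Real.norm_eq_abs, abs_of_nonneg
      (div_nonneg (Wt_nonneg _) (Nat.cast_nonneg _))]
    exact term_bd hN (Finset.mem_Icc.1 hn).1
  refine (Finset.sum_le_sum h1).trans ?_
  rw [Finset.sum_const, Nat.card_Icc, nsmul_eq_mul, Nat.add_sub_cancel]
  have h2 : ((⌊Real.exp 3 * N⌋₊ : ℕ) : ℝ) ≤ Real.exp 3 * N := Nat.floor_le (by positivity)
  calc ((⌊Real.exp 3 * N⌋₊ : ℕ) : ℝ) * (Real.exp 3 / N) ≤ Real.exp 3 * N * (Real.exp 3 / N) :=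
        mul_le_mul_of_nonneg_right h2 (by positivity)
    _ = Real.exp 6 := by
        rw [show (6 : ℝ) = 3 + 3 by norm_num, Real.exp_add]
        field_simp

/-- one of the five tents -/
theorem tent_bd {CS : ℝ} (hS : ∀ β p q τ s₀ : ℝ, 1 ≤ β → β ≤ 20 → τ ≠ 0 →
    |τ| ≤ Real.exp (s₀ - 1) → ‖∑ n ∈ Icc 1 ⌊Real.exp (s₀ + 1)⌋₊,
    (((p + q * (Real.log n - s₀)) * w (β * (Real.log n - s₀)) / n : ℝ) : ℂ) *
      er (-τ) (Real.log n)‖ ≤ CS * (|p| + |q|) * (1 / τ ^ 2 + Real.exp (-(2 * s₀))))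
    {N : ℝ} (hN : 1 ≤ N) {τ : ℤ} (hτ : τ ≠ 0) (hτN : |(τ : ℝ)| ≤ N * Real.exp (-3)) (hCS : 1 ≤ CS)
    {j : ℝ} (hj : -2 ≤ j) (hj' : j ≤ 2) :
    ‖∑ n ∈ Icc 1 ⌊Real.exp 3 * N⌋₊, ((w (Real.log n - Real.log N - j) / n : ℝ) : ℂ) *
      ch τ (Real.log n)‖ ≤ CS * (1 + Real.exp 4) * (1 / (τ : ℝ) ^ 2) := by
  have hN0 : 0 < N := by linarith
  have hτ0 : (τ : ℝ) ≠ 0 := by exact_mod_cast hτ
  have h1 := hS 1 1 0 τ (Real.log N + j) le_rfl (by norm_num) hτ0 (by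
    refine hτN.trans ?_
    have h2 : N * Real.exp (-3) = Real.exp (Real.log N + -3) := by
      rw [Real.exp_add, Real.exp_log hN0]
    rw [h2]
    exact Real.exp_le_exp.2 (by linarith))
  have h3 : ∑ n ∈ Icc 1 ⌊Real.exp 3 * N⌋₊, ((w (Real.log n - Real.log N - j) / n : ℝ) : ℂ) *
      ch τ (Real.log n) = ∑ n ∈ Icc 1 ⌊Real.exp (Real.log N + j + 1)⌋₊,
    (((1 + 0 * (Real.log n - (Real.log N + j))) * w (1 * (Real.log n - (Real.log N + j))) / n : ℝ) :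
      ℂ) * er (-τ) (Real.log n) := by
    have h4 : Icc 1 ⌊Real.exp (Real.log N + j + 1)⌋₊ ⊆ Icc 1 ⌊Real.exp 3 * N⌋₊ := by
      refine Finset.Icc_subset_Icc_right (Nat.floor_le_floor ?_)
      calc Real.exp (Real.log N + j + 1) ≤ Real.exp (3 + Real.log N) :=
            Real.exp_le_exp.2 (by linarith)
        _ = Real.exp 3 * N := by rw [Real.exp_add, Real.exp_log hN0]
    rw [← Finset.sum_subset h4]
    · refine Finset.sum_congr rfl fun n _ => ?_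
      congr 2
      · rw [zero_mul, add_zero, one_mul, one_mul, sub_sub]
      · unfold ch er
        congr 1
        push_cast
        ring
    · intro n hn hn'
      have h5 : ⌊Real.exp (Real.log N + j + 1)⌋₊ < n := by
        by_contra h6
        exact hn' (Finset.mem_Icc.2 ⟨(Finset.mem_Icc.1 hn).1, not_lt.1 h6⟩)
      have h6 : Real.exp (Real.log N + j + 1) < n := (Nat.floor_lt (Real.exp_pos _).le).1 h5
      have h7 : Real.log N + j + 1 < Real.log n := by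
        rw [Real.lt_log_iff_exp_lt (lt_trans (Real.exp_pos _) h6)]
        exact h6
      rw [w_zero (by rw [le_abs]; left; linarith)]
      simp
  rw [h3]
  refine h1.trans ?_
  rw [abs_one, abs_zero, add_zero, mul_one, mul_assoc]
  refine mul_le_mul_of_nonneg_left ?_ (by linarith)
  rw [add_mul, one_mul]
  refine add_le_add le_rfl ?_
  have h8 : Real.exp (-(2 * (Real.log N + j))) = Real.exp (-(2 * j)) * (1 / N ^ 2) := by
    have h9 : -(2 * (Real.log N + j)) = -(2 * j) + -(Real.log N + Real.log N) := by ring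
    rw [h9, Real.exp_add, Real.exp_neg (Real.log N + Real.log N), Real.exp_add,
      Real.exp_log hN0]
    congr 1
    rw [one_div, sq]
  rw [h8]
  have h10 : |(τ : ℝ)| ≤ N := by
    refine hτN.trans ?_
    have : Real.exp (-3) ≤ 1 := Real.exp_le_one_iff.2 (by norm_num)
    nlinarith
  have h11 : 1 / N ^ 2 ≤ 1 / (τ : ℝ) ^ 2 := by
    have h12 : (τ : ℝ) ^ 2 ≤ N ^ 2 := by
      rw [← sq_abs]
      exact pow_le_pow_left₀ (abs_nonneg _) h10 2
    exact one_div_le_one_div_of_le (by positivity) h12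
  exact mul_le_mul (Real.exp_le_exp.2 (by linarith)) h11 (by positivity) (Real.exp_pos _).le

theorem ker_small {CS : ℝ} (hS : ∀ β p q τ s₀ : ℝ, 1 ≤ β → β ≤ 20 → τ ≠ 0 →
    |τ| ≤ Real.exp (s₀ - 1) → ‖∑ n ∈ Icc 1 ⌊Real.exp (s₀ + 1)⌋₊,
    (((p + q * (Real.log n - s₀)) * w (β * (Real.log n - s₀)) / n : ℝ) : ℂ) *
      er (-τ) (Real.log n)‖ ≤ CS * (|p| + |q|) * (1 / τ ^ 2 + Real.exp (-(2 * s₀))))
    {N : ℝ} (hN : 1 ≤ N) {τ : ℤ} (hτ : τ ≠ 0) (hτN : |(τ : ℝ)| ≤ N * Real.exp (-3))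
    (hCS : 1 ≤ CS) : ‖kn N τ‖ ≤ 5 * (CS * (1 + Real.exp 4)) * (1 / (τ : ℝ) ^ 2) := by
  have h : ∀ j : ℝ, -2 ≤ j → j ≤ 2 → _ := fun j h1 h2 => tent_bd hS hN hτ hτN hCS h1 h2
  have h1 : kn N τ =
      ∑ n ∈ Icc 1 ⌊Real.exp 3 * N⌋₊, ((w (Real.log n - Real.log N - 2) / n : ℝ) : ℂ) *
        ch τ (Real.log n) +
      ∑ n ∈ Icc 1 ⌊Real.exp 3 * N⌋₊, ((w (Real.log n - Real.log N - 1) / n : ℝ) : ℂ) *
        ch τ (Real.log n) +
      ∑ n ∈ Icc 1 ⌊Real.exp 3 * N⌋₊, ((w (Real.log n - Real.log N - 0) / n : ℝ) : ℂ) *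
        ch τ (Real.log n) +
      ∑ n ∈ Icc 1 ⌊Real.exp 3 * N⌋₊, ((w (Real.log n - Real.log N - (-1)) / n : ℝ) : ℂ) *
        ch τ (Real.log n) +
      ∑ n ∈ Icc 1 ⌊Real.exp 3 * N⌋₊, ((w (Real.log n - Real.log N - (-2)) / n : ℝ) : ℂ) *
        ch τ (Real.log n) := by
    unfold kn
    rw [← Finset.sum_add_distrib, ← Finset.sum_add_distrib, ← Finset.sum_add_distrib,
      ← Finset.sum_add_distrib]
    refine Finset.sum_congr rfl fun n _ => ?_
    rw [Wt_eq, sub_zero, sub_neg_eq_add, sub_neg_eq_add]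
    push_cast
    ring
  rw [h1]
  have e1 := h 2 (by norm_num) (by norm_num)
  have e2 := h 1 (by norm_num) (by norm_num)
  have e3 := h 0 (by norm_num) (by norm_num)
  have e4 := h (-1) (by norm_num) (by norm_num)
  have e5 := h (-2) (by norm_num) (by norm_num)
  refine (norm_add_le _ _).trans ?_
  refine (add_le_add_left (norm_add_le _ _) _).trans ?_
  refine (add_le_add_left (add_le_add_left (norm_add_le _ _) _) _).trans ?_
  refine (add_le_add_left (add_le_add_left (add_le_add_left (norm_add_le _ _) _) _) _).trans ?_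
  linarith

end Pool.Agent.Q209.KS
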